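import Pool.Agent.Helper90.MZ.StmtsZ

/-! ZCB: the classes above a realization of an active type. -/

set_option autoImplicit false

namespace Pool.Agent.Helper90.MZ

open Pool.Agent.Helper90.TS

theorem zcb_acl_mono {V G : Type} [Group G] [MulAction G V] {A B : Set V} (h : A ⊆ B) :
    acl G A ⊆ acl G B := by
  intro e he
  refine Set.Finite.subset he ?_
  rintro e' ⟨g, hg, hge⟩
  exact ⟨g, fx_anti h hg, hge⟩

/-- models above a countable set -/
theorem zcb_mdl {V G : Type} [Group G] [MulAction G V] (X : Ctx V G) (hM : ST_MDLB)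
    (C B : Set V) (hC : C.Countable) (hB : B.Countable) : ∃ M, Mdl X M ∧ C ⊆ M ∧ SI X C M B :=
  (hM V G X).2.1 C B C le_rfl hC hB (si_self_left hC hB le_rfl)

/-- atomic models above a countable set -/
theorem zcb_atm {V G : Type} [Group G] [MulAction G V] (X : Ctx V G) (hM : ST_MDLB)
    (hP : ST_PRIM) (C : Set V) (hC : C.Countable) : ∃ N, Atm X C N := by
  obtain ⟨M, hM1, hM2, _⟩ := zcb_mdl X hM C ∅ hC Set.countable_empty
  obtain ⟨N, _, hN⟩ := hP V G X C M hM1 hM2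
  exact ⟨N, hN⟩

/-- a family of pairwise orthogonal ENI classes above `z` -/
def zcb_fam {V G : Type} [Group G] [MulAction G V] (X : Ctx V G) (a1 z : Set V) (k : ℕ)
    (C : Fin k → Ty V) : Prop :=
  (∀ i, ENI X (C i) ∧ Sup X (a1 ∪ z) (C i) ∧ ¬ Sup X a1 (C i)) ∧
    ∀ i j, i ≠ j → ¬ NO X (C i) (C j)

theorem zcb_max {V G : Type} [Group G] [MulAction G V] (X : Ctx V G) (hFIN : ST_FIN)
    (hPRB : ST_PRB) (hWT : ST_WT) (hFew : Few X) (a1 z : Set V) (ha1 : a1.Finite)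
    (hz : z.Finite) : ∃ (k : ℕ) (C : Fin k → Ty V), zcb_fam X a1 z k C ∧
      ∀ C' : Fin (k + 1) → Ty V, ¬ zcb_fam X a1 z (k + 1) C' := by
  classical
  obtain ⟨K, hK⟩ := hFIN V G X a1 hFew ha1
  obtain ⟨w, hw⟩ := hWT V G X a1 z ha1.countable hz
  have hb : ∀ k, (∃ C : Fin k → Ty V, zcb_fam X a1 z k C) → k ≤ K * w := by
    rintro k ⟨C, hC1, hC2⟩
    refine hK z w hz.countable hw k C ⟨fun i => ⟨(hC1 i).1, (hC1 i).2.2⟩, hC2⟩ ?_
    intro i
    exact (hPRB V G X a1 ha1.countable).2.2.2.2.2 (C i) z (hC1 i).1.1 hz.countable (hC1 i).2.1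
      (hC1 i).2.2
  have h0 : ∃ C : Fin 0 → Ty V, zcb_fam X a1 z 0 C :=
    ⟨Fin.elim0, fun i => i.elim0, fun i => i.elim0⟩
  have h1 : ¬ ∃ C : Fin (K * w + 1) → Ty V, zcb_fam X a1 z (K * w + 1) C := fun h => by
    have := hb _ h
    omega
  have h2 : ∃ n, ¬ ∃ C : Fin (n + 1) → Ty V, zcb_fam X a1 z (n + 1) C := ⟨K * w, h1⟩
  have h3 := Nat.find_spec h2
  push Not at h3
  refine ⟨Nat.find h2, ?_⟩
  have h4 : ∃ C : Fin (Nat.find h2) → Ty V, zcb_fam X a1 z (Nat.find h2) C := by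
    rcases Nat.eq_zero_or_pos (Nat.find h2) with h | h
    · rw [h]; exact h0
    · have h5 := Nat.find_min h2 (m := Nat.find h2 - 1) (by omega)
      rw [not_not] at h5
      have h6 : Nat.find h2 - 1 + 1 = Nat.find h2 := by omega
      rw [h6] at h5
      exact h5
  obtain ⟨C, hC⟩ := h4
  exact ⟨C, hC, h3⟩

/-- by maximality every class is in the list -/
theorem zcb_in {V G : Type} [Group G] [MulAction G V] (X : Ctx V G) (hNOEQ : ST_NOEQ)
    (a1 z : Set V) (k : ℕ) (C : Fin k → Ty V) (hC : zcb_fam X a1 z k C)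
    (hmax : ∀ C' : Fin (k + 1) → Ty V, ¬ zcb_fam X a1 z (k + 1) C') (r : Ty V) (hr : ENI X r)
    (hr1 : Sup X (a1 ∪ z) r) (hr2 : ¬ Sup X a1 r) : ∃ i, NO X r (C i) := by
  by_contra hcon
  push Not at hcon
  apply hmax (Fin.cons r C)
  constructor
  · intro i
    refine Fin.cases ?_ (fun j => ?_) i
    · rw [Fin.cons_zero]
      exact ⟨hr, hr1, hr2⟩
    · rw [Fin.cons_succ]
      exact hC.1 j
  · intro i
    refine Fin.cases ?_ (fun j => ?_) i
    · intro j
      refine Fin.cases ?_ (fun j' => ?_) j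
      · intro h; exact absurd rfl h
      · intro _
        rw [Fin.cons_zero, Fin.cons_succ]
        exact hcon j'
    · intro j'
      refine Fin.cases ?_ (fun j2 => ?_) j'
      · intro _
        rw [Fin.cons_zero, Fin.cons_succ]
        intro h
        exact hcon j ((hNOEQ V G X).2.1 _ _ h)
      · intro h
        rw [Fin.cons_succ, Fin.cons_succ]
        exact hC.2 j j2 (fun h' => h (by rw [h']))

/-- representatives with finite bases in `N` -/
theorem zcb_rep {V G : Type} [Group G] [MulAction G V] (X : Ctx V G) (hSUPU : ST_SUPU)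
    (hENIU : ST_ENIU) (hNOEQ : ST_NOEQ) (hRLB : ST_RLB) (N : Set V) (hN : Mdl X N) (r : Ty V)
    (hr : ENI X r) (hs : Sp X N r) : ∃ q : Ty V, EN0 X q ∧ q.A ⊆ N ∧ NO X r q := by
  obtain ⟨p', hp1, hp2, hp3, hp4, hp5⟩ := (hSUPU V G X).2.2.2.2.2.1 N r hr.1 hs
  have hp6 : ENI X p' := (hENIU V G X r).2.2.2.1 hr p' hp1 hp3 hp5
  obtain ⟨F, hF1, hF2, hF3, hF4⟩ := (hENIU V G X p').2.2.1 hp6 N hN hp2
  obtain ⟨y, hy⟩ := (hRLB V G X p' hp1 F hF1.countable).1
  obtain ⟨h1, h2⟩ := hF4 y hy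
  refine ⟨⟨F, p'.D, y⟩, h1, hF3, ?_⟩
  exact (hNOEQ V G X).2.2 _ _ _ hr.1 hp1 h1.1 hp5 ((hNOEQ V G X).2.1 _ _ h2)

theorem st_ZCB (hFIN : ST_FIN) (hNF : ST_NF) (hPRB : ST_PRB) (hSUPB : ST_SUPB)
    (hSUPU : ST_SUPU) (hENIU : ST_ENIU) (hFDOM : ST_FDOM) (hSTN : ST_STN) (hWT : ST_WT)
    (hPRIM : ST_PRIM) (hMDLB : ST_MDLB) (hRLB : ST_RLB) (hINVA : ST_INVA) (hINVB : ST_INVB)
    (hNOEQ : ST_NOEQ) : ST_ZCB := by
  intro V G _ _ X Q a1 p hFew hQ ha1 ha1Q hp hpa
  obtain ⟨z, hz⟩ := (hRLB V G X p hp Q hQ.1).1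
  have hzf : (Set.range z).Finite := Set.finite_range z
  obtain ⟨N, hN⟩ := zcb_atm X hMDLB hPRIM (Q ∪ Set.range z) (hQ.1.union hzf.countable)
  obtain ⟨k, C, hC, hmax⟩ := zcb_max X hFIN hPRB hWT hFew a1 (Set.range z) ha1 hzf
  -- representatives
  have hrep : ∀ i, ∃ q : Ty V, EN0 X q ∧ q.A ⊆ N ∧ NO X (C i) q := by
    intro i
    apply zcb_rep X hSUPU hENIU hNOEQ hRLB N hN.1 (C i) (hC.1 i).1
    apply (hC.1 i).2.1 N hN.1
    exact (Set.union_subset_union_left _ ha1Q).trans hN.2.1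
  choose q hq1 hq2 hq3 using hrep
  obtain ⟨c0, hc0⟩ : ∃ c0 : Set V, c0 = ⋃ i, (q i).A := ⟨_, rfl⟩
  have hc0f : c0.Finite := by
    rw [hc0]
    exact Set.finite_iUnion (fun i => (hq1 i).2.1)
  have hc0N : c0 ⊆ N := by
    rw [hc0]
    exact Set.iUnion_subset hq2
  obtain ⟨n, f, hf⟩ : ∃ (n : ℕ) (f : Fin n → V), Set.range f = c0 := by
    obtain ⟨n, f, _, hf⟩ := hc0f.fin_param
    exact ⟨n, f, hf⟩
  have hiso : Isl X (Q ∪ Set.range z) f := hN.2.2 n f (by rw [hf]; exact hc0N)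
  obtain ⟨b0, hb0Q, hb0f, hb0⟩ := hFDOM V G X Q (Set.range z) hQ hzf (Fin n) f hiso
  rw [hf] at hb0
  obtain ⟨e, he1, he2, he3⟩ := (hSTN V G X).2.2.2.2.2.2 (a1 ∪ b0) (Set.range z ∪ c0)
    (ha1.union hb0f).countable (hzf.union hc0f)
  have heQ : e ⊆ Q := by
    refine he1.trans ?_
    refine (zcb_acl_mono (Set.union_subset ha1Q hb0Q)).trans ?_
    rw [(hMDLB V G X).2.2.1 Q hQ]
  refine ⟨a1 ∪ b0 ∪ e, (ha1.union hb0f).union he2, ?_, ?_, ?_⟩
  · exact Set.subset_union_left.trans Set.subset_union_left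
  · exact Set.union_subset (Set.union_subset ha1Q hb0Q) heQ
  intro a haf ha2 haQ y hy
  have ha1a : a1 ⊆ a := (Set.subset_union_left.trans Set.subset_union_left).trans ha2
  have hb0a : b0 ⊆ a := (Set.subset_union_right.trans Set.subset_union_left).trans ha2
  have hpa' : p.A ⊆ a := hpa.trans ha1a
  have hpA : p.A.Countable := hp.cnt
  have hac : a.Countable := haf.countable
  obtain ⟨hdom, hdomI⟩ := hb0 a hb0a haQ
  have ha2Q : a1 ∪ b0 ∪ e ⊆ Q := ha2.trans haQ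
  obtain ⟨_, hdomI2⟩ := hb0 (a1 ∪ b0 ∪ e)
    (Set.subset_union_right.trans Set.subset_union_left) ha2Q
  have hzc : (Set.range z ∪ c0).Countable := (hzf.union hc0f).countable
  have ha2c : (a1 ∪ b0 ∪ e).Countable := ((ha1.union hb0f).union he2).countable
  have hstn : Stn X a (Set.range z ∪ c0) := by
    have h1 := (hSTN V G X).2.2.2.2.1 (a1 ∪ b0 ∪ e) (Set.range z ∪ c0) a ha2c hzc hac he3
      (si_right ha2c hzc hQ.1 haQ hdomI2)
    rwa [Set.union_eq_self_of_subset_left ha2] at h1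
  have hza : Rl X p a z := (hRLB V G X p hp Q hQ.1).2.2.1 z hz a
    (haQ.trans Set.subset_union_right)
  have hpAa : p.A ∪ a = a := Set.union_eq_self_of_subset_left hpa'
  -- the claim
  have claim : ∀ r : Ty V, ENI X r → Sup X (a ∪ Set.range z) r → ¬ Sup X a r →
      ∃ i, NO X r (q i) := by
    intro r hr hr1 hr2
    have hr3 : ¬ Sup X a1 r := fun h => hr2 ((hSUPU V G X).2.1 a1 a r ha1a h)
    have hrA : r.A.Countable := hr.1.cnt
    obtain ⟨M, hM1, hM2, hM3⟩ := zcb_mdl X hMDLB a (Set.range z ∪ r.A) hac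
      (hzf.countable.union hrA)
    have hM4 : ¬ Sp X M r := by
      intro h
      apply hr2
      exact hSUPB V G X a M r hM2 hM1 hr.1
        (si_right hac hM1.1 (hzf.countable.union hrA) Set.subset_union_right hM3) h
    obtain ⟨M', hM'⟩ := zcb_atm X hMDLB hPRIM (M ∪ Set.range z) (hM1.1.union hzf.countable)
    have hM5 : Sp X M' r := hr1 M' hM'.1
      ((Set.union_subset_union_left _ hM2).trans hM'.2.1)
    have hzM : Rl X p M z := by
      have h1 : SI X (p.A ∪ a) (Set.range z) M := by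
        rw [hpAa]
        exact si_symm hac hM1.1 hzf.countable
          (si_right hac hM1.1 (hzf.countable.union hrA) Set.subset_union_left hM3)
      have h2 := (hRLB V G X p hp a hac).2.2.2.1 z M hM1.1 hza h1
      refine (hRLB V G X p hp (a ∪ M) (hac.union hM1.1)).2.2.1 z h2 M ?_
      exact Set.subset_union_right.trans Set.subset_union_right
    have hr4 : Sup X (a1 ∪ Set.range z) r :=
      hNF V G X a1 M M' p r z hFew ha1 hp hpa hM1 (ha1a.trans hM2) hzM hM' hr hM5 hM4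
    obtain ⟨i, hi⟩ := zcb_in X hNOEQ a1 (Set.range z) k C hC hmax r hr hr4 hr3
    exact ⟨i, (hNOEQ V G X).2.2 _ _ _ hr.1 (hC.1 i).1.1 (hq1 i).1 hi (hq3 i)⟩
  -- transport to `y`
  obtain ⟨g, hg, hgz⟩ := (hRLB V G X p hp a hac).2.1 z y hza hy
  rw [hpAa] at hg
  have hga : tr g a = a := tr_fx hg
  have hgz' : tr g (Set.range z) = Set.range y := by rw [tr_range, hgz]
  have hgi : tr g⁻¹ (a ∪ Set.range y) = a ∪ Set.range z := by
    rw [← hgz', ← hga, ← tr_union, tr_inv_tr, hga]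
  have hgf : Set.range (g • f) = tr g c0 := by rw [← hf, tr_range]
  refine ⟨tr g c0, ⟨n, g • f, hgf, ?_⟩, ?_, ?_⟩
  · have h1 := (hINVB V G X g).2.2.1 a (Set.range z) (Fin n) f hac hzf.countable hdom
    rwa [hga, hgz'] at h1
  · have h1 := (hSTN V G X).2.2.2.2.2.1 a (Set.range z ∪ c0) g hac hzc hstn
    rwa [hga, tr_union, hgz'] at h1
  · intro r hr hr1 hr2
    have e1 : mv g (mv g⁻¹ r) = r := by
      have := (hINVA V G X g⁻¹).1 r
      rwa [inv_inv] at this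
    have h1 : ENI X (mv g⁻¹ r) := (hINVA V G X g⁻¹).2.2.2.2.2.2.2.2.1 r hr
    have h2 : Sup X (a ∪ Set.range z) (mv g⁻¹ r) := by
      have := (hINVA V G X g⁻¹).2.2.2.2.2.1 (a ∪ Set.range y) r hr1
      rwa [hgi] at this
    have h3 : ¬ Sup X a (mv g⁻¹ r) := by
      intro h
      have := (hINVA V G X g).2.2.2.2.2.1 a (mv g⁻¹ r) h
      rw [hga, e1] at this
      exact hr2 this
    obtain ⟨i, hi⟩ := claim _ h1 h2 h3
    refine ⟨mv g (q i), (hINVA V G X g).2.2.2.2.2.2.2.2.2.1 (q i) (hq1 i), ?_, ?_⟩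
    · have h4 : (q i).A ⊆ c0 := by
        rw [hc0]
        exact Set.subset_iUnion (fun i => (q i).A) i
      have h5 : (mv g (q i)).A = tr g (q i).A := rfl
      rw [h5]
      exact (tr_mono g h4).trans (Set.subset_union_right.trans Set.subset_union_right)
    · have := (hINVA V G X g).2.2.2.1 _ _ hi
      rwa [e1] at this

end Pool.Agent.Helper90.MZ
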